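import Pool.Agent.R252.AC.Fin

/-!
# MP_d3c7f3_an: rigidity in the area contraction of harmonic self-maps of the disk

Every harmonic map `f` of the unit disk into itself (no injectivity needed) satisfies
`area f(D_r) ≤ area D_r`, and equality for one `r` in `(0,1)` holds exactly for
`f(z) = c z` and `f(z) = c conj z`, `|c| = 1`.  In particular the question has the answer TRUE.

Proof: Young's inequality for the Poisson kernel and the logarithm bounds the support function of
`f(D_r)` pointwise, and the mean width of `f(D_r)` by `2 r`; Brunn-Minkowski averaging over rotations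
gives the area bound.
-/

set_option autoImplicit false

namespace Pool.Agent.Results.MP_d3c7f3_an.AreaRigidity

open MeasureTheory Set Metric Complex InnerProductSpace Filter Topology
open Pool.Agent.R252.AC

/-- positive Jacobian on the unit disk -/
def SensePreserving (f : ℂ → ℂ) : Prop := ∀ z ∈ ball (0 : ℂ) 1, 0 < (fderiv ℝ f z).det

/-- on the unit disk `φ(z) = e^{iθ} (z - a) / (1 - conj a z)` with `|a| < 1` -/
def IsAutomorphism (φ : ℂ → ℂ) : Prop :=
  ∃ (θ : ℝ) (a : ℂ), ‖a‖ < 1 ∧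
    ∀ z ∈ ball (0 : ℂ) 1, φ z = exp (θ * I) * ((z - a) / (1 - (starRingEnd ℂ) a * z))

theorem exp_arg (c : ℂ) (hc : ‖c‖ = 1) : exp (arg c * I) = c := by
  have h := Complex.norm_mul_exp_arg_mul_I c
  rw [hc] at h
  simpa using h

theorem vol_mul (c : ℂ) (hc : ‖c‖ = 1) (K : Set ℂ) : volume ((fun z => c * z) '' K) = volume K := by
  rw [← vol_rot (arg c) K]
  congr 1
  refine image_congr ?_
  intro z _
  rw [rot_apply, exp_arg c hc]

theorem conj_ball (r : ℝ) : (starRingEnd ℂ) '' ball (0 : ℂ) r = ball 0 r := by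
  ext z
  constructor
  · rintro ⟨w, hw, rfl⟩
    rw [mem_ball_zero_iff] at hw ⊢
    rwa [RCLike.norm_conj]
  · intro hz
    refine ⟨(starRingEnd ℂ) z, ?_, by simp⟩
    rw [mem_ball_zero_iff] at hz ⊢
    rwa [RCLike.norm_conj]

theorem not_reflection (f : ℂ → ℂ) (hs : SensePreserving f) (c : ℂ) (hc : ‖c‖ = 1)
    (h : ∀ z ∈ ball (0 : ℂ) 1, f z = c * (starRingEnd ℂ) z) : False := by
  have hd : HasFDerivAt f (LinearMap.toContinuousLinearMap (Lm c (-(I * c)))) 0 := by
    refine HasFDerivAt.congr_of_eventuallyEq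
      (LinearMap.toContinuousLinearMap (Lm c (-(I * c)))).hasFDerivAt ?_
    filter_upwards [ball_mem_nhds (0 : ℂ) one_pos] with z hz
    rw [h z hz]
    show c * (starRingEnd ℂ) z = Lm c (-(I * c)) z
    rw [Lm_apply]
    have : (starRingEnd ℂ) z = (z.re : ℂ) - (z.im : ℂ) * I := by
      apply Complex.ext <;> simp
    rw [this]
    ring
  have h0 := hs 0 (mem_ball_self one_pos)
  rw [hd.fderiv] at h0
  have h1 : (LinearMap.toContinuousLinearMap (Lm c (-(I * c)))).det =
      LinearMap.det (Lm c (-(I * c))) := rfl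
  rw [h1, Lm_det] at h0
  have hn : c.re ^ 2 + c.im ^ 2 = 1 := by
    have : ‖c‖ ^ 2 = 1 := by rw [hc]; norm_num
    rw [← Complex.normSq_eq_norm_sq, Complex.normSq_apply] at this
    linarith
  have e1 : (-(I * c)).re = c.im := by simp
  have e2 : (-(I * c)).im = -c.re := by simp
  rw [e1, e2] at h0
  nlinarith

theorem result :
    (∀ f : ℂ → ℂ, HarmonicOnNhd f (ball 0 1) → MapsTo f (ball 0 1) (ball 0 1) →
      ∀ r ∈ Ioo (0 : ℝ) 1,
        volume (f '' ball 0 r) ≤ volume (ball (0 : ℂ) r) ∧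
        (volume (f '' ball 0 r) = volume (ball (0 : ℂ) r) ↔
          ∃ c : ℂ, ‖c‖ = 1 ∧ ((∀ z ∈ ball (0 : ℂ) 1, f z = c * z) ∨
            (∀ z ∈ ball (0 : ℂ) 1, f z = c * (starRingEnd ℂ) z)))) ∧
    (∀ f : ℂ → ℂ, HarmonicOnNhd f (ball 0 1) → SensePreserving f → InjOn f (ball 0 1) →
      MapsTo f (ball 0 1) (ball 0 1) → ∀ r ∈ Ioo (0 : ℝ) 1,
        volume (f '' ball 0 r) = volume (ball (0 : ℂ) r) →
          IsAutomorphism f ∧ ∃ c : ℂ, ‖c‖ = 1 ∧ ∀ z ∈ ball (0 : ℂ) 1, f z = c * z) := by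
  have hb : ∀ f : ℂ → ℂ, MapsTo f (ball 0 1) (ball 0 1) → ∀ z ∈ ball (0 : ℂ) 1, ‖f z‖ ≤ 1 := by
    intro f hm z hz
    have := hm hz
    rw [mem_ball_zero_iff] at this
    exact this.le
  constructor
  · intro f hf hm r hr
    refine ⟨contr f hf (hb f hm) r hr.1 hr.2,
      classify f hf (hb f hm) r hr.1 hr.2, ?_⟩
    rintro ⟨c, hc, h | h⟩
    · have e : f '' ball 0 r = (fun z => c * z) '' ball 0 r :=
        image_congr (fun z hz => h z (ball_subset_ball hr.2.le hz))
      rw [e, vol_mul c hc]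
    · have e : f '' ball 0 r = (fun z => c * z) '' ((starRingEnd ℂ) '' ball 0 r) := by
        rw [image_image]
        exact image_congr (fun z hz => h z (ball_subset_ball hr.2.le hz))
      rw [e, vol_mul c hc, conj_ball]
  · intro f hf hs _ hm r hr hv
    obtain ⟨c, hc, h | h⟩ := classify f hf (hb f hm) r hr.1 hr.2 hv
    · refine ⟨⟨arg c, 0, by simp, ?_⟩, c, hc, h⟩
      intro z hz
      rw [h z hz, exp_arg c hc]
      simp
    · exact (not_reflection f hs c hc h).elim

end Pool.Agent.Results.MP_d3c7f3_an.AreaRigidity
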